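import Pool.Agent.H.MP_160e58_al.Main

set_option autoImplicit false

namespace Pool.Agent.Results.MP_160e58_al.Q1

def IsRBIndex (F A : Type) [Field F] [Ring A] [Algebra F A] (k : ℕ) : Prop :=
  IsLeast {m : ℕ | ∀ R : Module.End F A,
    (∀ x y, R x * R y = R (R x * y + x * R y)) → R ^ m = 0} k

theorem result (F : Type) [Field F] [CharZero F] (n : ℕ) (hn : 1 ≤ n) :
    IsRBIndex F (ExteriorAlgebra F (Fin n → F)) (max n 2) := by
  haveI : Nonempty (Fin n) := ⟨⟨0, hn⟩⟩
  refine ⟨fun R hR => by simpa using Pool.Agent.H.MP_160e58_al.upper R hR, fun m hm => ?_⟩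
  obtain ⟨R, h1, h2⟩ := Pool.Agent.H.MP_160e58_al.lower_main (F := F) hn
  by_contra h
  exact h2 (pow_eq_zero_of_le (by omega) (hm R h1))

end Pool.Agent.Results.MP_160e58_al.Q1
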